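import Mathlib

set_option autoImplicit false

namespace Pool.Agent.H499R2.CO

/-! Foster's criterion for a chain with two equally likely moves. -/

/-- Bounded functions harmonic off `o` and vanishing at `o` are zero when there is a proper function
strictly superharmonic outside a finite set, and `o` can be reached from everywhere. -/
theorem foster {S : Type*} (st : S → Bool → S) (o : S) (W : S → ℝ) (F : Set S) (hF : F.Finite)
    (hW0 : ∀ s, 0 ≤ W s) (hW : ∀ M : ℝ, {s | W s ≤ M}.Finite)
    (hd : ∀ s, s ∉ F → s ≠ o → W (st s false) + W (st s true) < 2 * W s)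
    (hr : ∀ s, Relation.ReflTransGen (fun a b => ∃ c, b = st a c) s o)
    (Q : S → ℝ) (h0 : ∀ s, 0 ≤ Q s) (h1 : ∀ s, Q s ≤ 1) (ho : Q o = 0)
    (hh : ∀ s, s ≠ o → 2 * Q s = Q (st s false) + Q (st s true)) : ∀ s, Q s = 0 := by
  classical
  obtain ⟨m, hm, hmax⟩ : ∃ m ∈ (F ∪ {o}), ∀ s ∈ (F ∪ {o}), Q s ≤ Q m := by
    have hfin : (F ∪ {o}).Finite := hF.union (Set.finite_singleton o)
    exact Set.exists_max_image _ Q hfin ⟨o, by simp⟩
  -- Q s ≤ Q m + ε W s
  have key : ∀ ε : ℝ, 0 < ε → ∀ s, Q s ≤ Q m + ε * W s := by
    intro ε hε
    by_contra hcon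
    push Not at hcon
    obtain ⟨s1, hs1⟩ := hcon
    set D : S → ℝ := fun s => Q s - Q m - ε * W s with hD
    have hDpos : ∀ s, 0 < D s → W s ≤ 1 / ε := by
      intro s hs
      have : ε * W s < 1 := by
        have := h1 s; have := h0 m; simp only [hD] at hs; linarith
      rw [le_div_iff₀ hε]; linarith
    have hs1D : 0 < D s1 := by simp only [hD]; linarith
    obtain ⟨s2, hs2, hs2max⟩ := Set.exists_max_image {s | W s ≤ 1 / ε} D (hW _) ⟨s1, hDpos s1 hs1D⟩
    have hs2D : 0 < D s2 := lt_of_lt_of_le hs1D (hs2max s1 (hDpos s1 hs1D))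
    have hall : ∀ s, D s ≤ D s2 := by
      intro s
      by_cases h : 0 < D s
      · exact hs2max s (hDpos s h)
      · linarith
    have hnot : s2 ∉ F ∪ {o} := by
      intro hmem
      have := hmax s2 hmem
      have hw := hW0 s2
      have : D s2 ≤ 0 := by
        simp only [hD]
        have := mul_nonneg hε.le hw
        linarith
      linarith
    have hnF : s2 ∉ F := fun h => hnot (Or.inl h)
    have hno : s2 ≠ o := fun h => hnot (Or.inr h)
    have e1 := hall (st s2 false)
    have e2 := hall (st s2 true)
    have e3 := hd s2 hnF hno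
    have e4 := hh s2 hno
    simp only [hD] at e1 e2
    have e5 : ε * (W (st s2 false) + W (st s2 true)) < ε * (2 * W s2) := by
      exact mul_lt_mul_of_pos_left e3 hε
    nlinarith
  have hle : ∀ s, Q s ≤ Q m := by
    intro s
    by_contra hcon
    push Not at hcon
    have hw := hW0 s
    have hpos : 0 < Q s - Q m := by linarith
    have := key ((Q s - Q m) / (2 * (W s + 1))) (by positivity) s
    have h3 : (Q s - Q m) / (2 * (W s + 1)) * W s ≤ (Q s - Q m) / 2 := by
      rw [div_mul_eq_mul_div, div_le_div_iff₀ (by positivity) (by norm_num)]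
      nlinarith
    linarith
  have hm0 : Q m = 0 := by
    by_contra hne
    have hpos : 0 < Q m := lt_of_le_of_ne (h0 m) (Ne.symm hne)
    have hpath : ∀ a, Relation.ReflTransGen (fun a b => ∃ c, b = st a c) a o → Q a = Q m → False := by
      intro a ha
      induction ha using Relation.ReflTransGen.head_induction_on with
      | refl => intro h; rw [ho] at h; linarith
      | @head x y hxy _ ih =>
        intro hQa
        obtain ⟨c, rfl⟩ := hxy
        by_cases hao : x = o
        · rw [hao, ho] at hQa; linarith
        · have e := hh x hao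
          have e1 := hle (st x false)
          have e2 := hle (st x true)
          apply ih
          cases c
          · linarith
          · linarith
    exact hpath m (hr m) rfl
  intro s
  exact le_antisymm (by rw [← hm0]; exact hle s) (h0 s)

/-- Probability (average over the `2 ^ k` words) of not having reached `o` within `k` moves. -/
noncomputable def q {S : Type*} (st : S → Bool → S) (o : S) : ℕ → S → ℝ := by
  classical
  exact fun k => Nat.rec (fun s => if s = o then 0 else 1)
    (fun _ f s => if s = o then 0 else (f (st s false) + f (st s true)) / 2) k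

section
variable {S : Type*} (st : S → Bool → S) (o : S)

theorem q_zero_ne {s : S} (h : s ≠ o) : q st o 0 s = 1 := by
  classical
  simp [q, h]

theorem q_o (k : ℕ) : q st o k o = 0 := by
  classical
  cases k <;> simp [q]

theorem q_succ {s : S} (h : s ≠ o) (k : ℕ) :
    q st o (k + 1) s = (q st o k (st s false) + q st o k (st s true)) / 2 := by
  classical
  simp [q, h]

theorem q_nonneg (k : ℕ) : ∀ s, 0 ≤ q st o k s := by
  induction k with
  | zero =>
    intro s
    by_cases h : s = o
    · subst h; rw [q_o]
    · rw [q_zero_ne st o h]; norm_num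
  | succ k ih =>
    intro s
    by_cases h : s = o
    · subst h; rw [q_o]
    · rw [q_succ st o h]
      have := ih (st s false); have := ih (st s true); linarith

theorem q_le_one (k : ℕ) : ∀ s, q st o k s ≤ 1 := by
  induction k with
  | zero =>
    intro s
    by_cases h : s = o
    · subst h; rw [q_o]; norm_num
    · rw [q_zero_ne st o h]
  | succ k ih =>
    intro s
    by_cases h : s = o
    · subst h; rw [q_o]; norm_num
    · rw [q_succ st o h]
      have := ih (st s false); have := ih (st s true); linarith

theorem q_anti (k : ℕ) : ∀ s, q st o (k + 1) s ≤ q st o k s := by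
  induction k with
  | zero =>
    intro s
    by_cases h : s = o
    · subst h; rw [q_o, q_o]
    · rw [q_zero_ne st o h]; exact q_le_one st o 1 s
  | succ k ih =>
    intro s
    by_cases h : s = o
    · subst h; rw [q_o, q_o]
    · rw [q_succ st o h, q_succ st o h]
      have := ih (st s false); have := ih (st s true); linarith

theorem q_tendsto (W : S → ℝ) (F : Set S) (hF : F.Finite)
    (hW0 : ∀ s, 0 ≤ W s) (hW : ∀ M : ℝ, {s | W s ≤ M}.Finite)
    (hd : ∀ s, s ∉ F → s ≠ o → W (st s false) + W (st s true) < 2 * W s)
    (hr : ∀ s, Relation.ReflTransGen (fun a b => ∃ c, b = st a c) s o) (s : S) :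
    Filter.Tendsto (fun k => q st o k s) Filter.atTop (nhds 0) := by
  have hanti : ∀ s, Antitone (fun k => q st o k s) := fun s => antitone_nat_of_succ_le (fun k => q_anti st o k s)
  have hbdd : ∀ s, BddBelow (Set.range (fun k => q st o k s)) :=
    fun s => ⟨0, by rintro _ ⟨k, rfl⟩; exact q_nonneg st o k s⟩
  have hlim : ∀ s, Filter.Tendsto (fun k => q st o k s) Filter.atTop (nhds (⨅ k, q st o k s)) :=
    fun s => tendsto_atTop_ciInf (hanti s) (hbdd s)
  have hQ := foster st o W F hF hW0 hW hd hr (fun s => ⨅ k, q st o k s)
    (fun s => le_ciInf (fun k => q_nonneg st o k s))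
    (fun s => (ciInf_le (hbdd s) 0).trans (q_le_one st o 0 s))
    (by
      have : (fun k => q st o k o) = fun _ => (0 : ℝ) := by ext k; exact q_o st o k
      simp only [this]; simp)
    (by
      intro s hs
      have h1 : Filter.Tendsto (fun k => 2 * q st o (k + 1) s) Filter.atTop
          (nhds (2 * ⨅ k, q st o k s)) :=
        ((hlim s).comp (Filter.tendsto_add_atTop_nat 1)).const_mul 2
      have h2 : Filter.Tendsto (fun k => q st o k (st s false) + q st o k (st s true)) Filter.atTop
          (nhds ((⨅ k, q st o k (st s false)) + ⨅ k, q st o k (st s true))) :=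
        (hlim _).add (hlim _)
      refine tendsto_nhds_unique h1 (h2.congr ?_)
      intro k
      rw [q_succ st o hs]; ring)
  have := hlim s
  rw [hQ s] at this
  exact this

end

end Pool.Agent.H499R2.CO
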