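import Mathlib
import Pool.Agent.H499R2.CO.A

set_option autoImplicit false

namespace Pool.Agent.H499R2.CO

/-! The chain of the pairs `(x, 3 ^ i x + r)` under the `3x+1` map, driven by the parities of `x`. -/

/-- State `(i, r)`: the pair is `x` and `3 ^ i * x + r`.  The letter is `true` when `x` is odd. -/
def step (s : ℕ × ℤ) (b : Bool) : ℕ × ℤ :=
  if s.2 % 2 = 0 then
    (if b then (s.1, (3 * s.2 + 1 - 3 ^ s.1) / 2) else (s.1, s.2 / 2))
  else
    match s.1 with
    | 0 => if b then (1, (1 - 3 * s.2) / 2) else (1, (3 * s.2 + 1) / 2)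
    | i + 1 => if b then (i, (s.2 - 3 ^ i) / 2) else (i + 2, (3 * s.2 + 1) / 2)

theorem step_ef {i : ℕ} {r : ℤ} (h : r % 2 = 0) : step (i, r) false = (i, r / 2) := by
  simp [step, h]

theorem step_et {i : ℕ} {r : ℤ} (h : r % 2 = 0) : step (i, r) true = (i, (3 * r + 1 - 3 ^ i) / 2) := by
  simp [step, h]

theorem step_0f {r : ℤ} (h : r % 2 = 1) : step (0, r) false = (1, (3 * r + 1) / 2) := by
  simp [step, h]

theorem step_0t {r : ℤ} (h : r % 2 = 1) : step (0, r) true = (1, (1 - 3 * r) / 2) := by
  simp [step, h]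

theorem step_sf {i : ℕ} {r : ℤ} (h : r % 2 = 1) : step (i + 1, r) false = (i + 2, (3 * r + 1) / 2) := by
  simp [step, h]

theorem step_st {i : ℕ} {r : ℤ} (h : r % 2 = 1) : step (i + 1, r) true = (i, (r - 3 ^ i) / 2) := by
  simp [step, h]

/-- One state can be reached from another. -/
def Reach (a b : ℕ × ℤ) : Prop := Relation.ReflTransGen (fun a b => ∃ c, b = step a c) a b

theorem Reach.of_step {a b : ℕ × ℤ} (c : Bool) (h : Reach (step a c) b) : Reach a b :=
  Relation.ReflTransGen.head ⟨c, rfl⟩ h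

theorem Reach.refl (a : ℕ × ℤ) : Reach a a := Relation.ReflTransGen.refl

theorem Reach.trans {a b c : ℕ × ℤ} (h : Reach a b) (h' : Reach b c) : Reach a c :=
  Relation.ReflTransGen.trans h h'

theorem reach_one : ∀ (n : ℕ), 1 ≤ n → ∃ w : ℕ, 2 * w + 1 ≤ n ∧ Reach (1, (n : ℤ)) (0, (w : ℤ)) := by
  intro n
  induction n using Nat.strong_induction_on with
  | _ n ih =>
    intro hn
    rcases Nat.even_or_odd' n with ⟨m, rfl | rfl⟩
    · obtain ⟨w, hw, hr⟩ := ih m (by omega) (by omega)
      refine ⟨w, by omega, Reach.of_step false ?_⟩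
      rw [step_ef (by push_cast; omega)]
      have : ((2 * m : ℕ) : ℤ) / 2 = m := by push_cast; omega
      rw [this]; exact hr
    · refine ⟨m, le_rfl, Reach.of_step true ?_⟩
      have e : step (1, ((2 * m + 1 : ℕ) : ℤ)) true = (0, (m : ℤ)) := by
        rw [show (1 : ℕ) = 0 + 1 from rfl, step_st (by push_cast; omega)]
        congr 1
        push_cast; simp
      rw [e]
      exact Reach.refl _

theorem reach_zero : ∀ (n : ℕ), ∀ r : ℤ, r.natAbs = n → Reach (0, r) (0, 0) := by
  intro n
  induction n using Nat.strong_induction_on with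
  | _ n ih =>
    intro r hr
    by_cases h0 : r = 0
    · subst h0; exact Reach.refl _
    rcases Int.emod_two_eq_zero_or_one r with h | h
    · refine Reach.of_step false ?_
      rw [step_ef h]
      exact ih _ (by omega) _ rfl
    · -- odd
      have hmid : ∃ c, step (0, r) c = (1, (((3 * n + 1) / 2 : ℕ) : ℤ)) := by
        rcases le_or_gt 0 r with h1 | h1
        · refine ⟨false, ?_⟩
          rw [step_0f h]; congr 1; omega
        · refine ⟨true, ?_⟩
          rw [step_0t h]; congr 1; omega
      obtain ⟨c, hc⟩ := hmid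
      refine Reach.of_step c ?_
      rw [hc]
      obtain ⟨w, hw, hr'⟩ := reach_one ((3 * n + 1) / 2) (by omega)
      refine hr'.trans (ih w ?_ _ (by simp))
      omega

theorem reach_down (i : ℕ) : ∀ (n : ℕ), ∀ r : ℤ, r.natAbs = n → r ≠ 0 →
    ∃ r' : ℤ, Reach (i + 1, r) (i, r') := by
  intro n
  induction n using Nat.strong_induction_on with
  | _ n ih =>
    intro r hr h0
    rcases Int.emod_two_eq_zero_or_one r with h | h
    · obtain ⟨r', hr'⟩ := ih (r / 2).natAbs (by omega) (r / 2) rfl (by omega)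
      refine ⟨r', Reach.of_step false ?_⟩
      rw [step_ef h]; exact hr'
    · refine ⟨(r - 3 ^ i) / 2, Reach.of_step true ?_⟩
      rw [step_st h]; exact Reach.refl _

theorem reach_all : ∀ (i : ℕ) (r : ℤ), Reach (i, r) (0, 0) := by
  intro i
  induction i with
  | zero => intro r; exact reach_zero _ r rfl
  | succ i ih =>
    have h1 : ∀ r : ℤ, r ≠ 0 → Reach (i + 1, r) (0, 0) := by
      intro r hr
      obtain ⟨r', hr'⟩ := reach_down i _ r rfl hr
      exact hr'.trans (ih r')
    intro r
    by_cases h0 : r = 0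
    · subst h0
      refine Reach.of_step true ?_
      rw [step_et (by norm_num)]
      apply h1
      have h3 : (3 : ℤ) ^ (i + 1) ≥ 3 := by
        calc (3 : ℤ) ^ (i + 1) = 3 ^ i * 3 := pow_succ _ _
          _ ≥ 1 * 3 := by
            have : (1 : ℤ) ≤ 3 ^ i := one_le_pow₀ (by norm_num)
            nlinarith
      omega
    · exact h1 r h0

end Pool.Agent.H499R2.CO
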