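import Mathlib
import Pool.Agent.H499R2.CO.D

set_option autoImplicit false

namespace Pool.Agent.H499R2.CO

open Finset

/-! Counting. -/

theorem sum_two {M : Type*} [AddCommMonoid M] (f : ℕ → M) (n : ℕ) :
    ∑ x ∈ range (2 * n), f x = ∑ u ∈ range n, f (2 * u) + ∑ u ∈ range n, f (2 * u + 1) := by
  induction n with
  | zero => simp
  | succ n ih =>
    rw [show 2 * (n + 1) = 2 * n + 1 + 1 by ring, sum_range_succ, sum_range_succ, ih,
      sum_range_succ, sum_range_succ]
    abel

/-- An affine map with odd slope permutes the classes modulo `2 ^ k`. -/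
theorem sum_affine (k : ℕ) (P : ℤ → ℝ) (hP : ∀ x m : ℤ, P (x + m * 2 ^ k) = P x) {a : ℤ}
    (ha : a % 2 = 1) (c : ℤ) :
    ∑ u ∈ range (2 ^ k), P (a * u + c) = ∑ u ∈ range (2 ^ k), P u := by
  have hN : (0 : ℤ) < 2 ^ k := by positivity
  set e : ℕ → ℕ := fun u => ((a * u + c) % 2 ^ k).toNat with he
  have he' : ∀ u : ℕ, ((e u : ℕ) : ℤ) = (a * u + c) % 2 ^ k := by
    intro u
    rw [he]
    exact Int.toNat_of_nonneg (Int.emod_nonneg _ hN.ne')
  have hmaps : ∀ u ∈ range (2 ^ k), e u ∈ range (2 ^ k) := by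
    intro u _
    rw [mem_range]
    have := Int.emod_lt_of_pos (a * u + c) hN
    rw [← he'] at this
    exact_mod_cast this
  have hcop : IsCoprime ((2 : ℤ) ^ k) a := by
    apply IsCoprime.pow_left
    exact ⟨-(a / 2), 1, by omega⟩
  have hinj : Set.InjOn e (range (2 ^ k) : Finset ℕ) := by
    intro u hu u' hu' h
    rw [mem_coe, mem_range] at hu hu'
    have h1 : (a * u + c) % 2 ^ k = (a * u' + c) % 2 ^ k := by rw [← he', ← he', h]
    have h2 : (2 : ℤ) ^ k ∣ (a * u + c) - (a * u' + c) := Int.ModEq.dvd (Int.ModEq.symm h1)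
    have h3 : (2 : ℤ) ^ k ∣ a * ((u : ℤ) - u') := by
      have e : (a * u + c) - (a * u' + c) = a * ((u : ℤ) - u') := by ring
      rwa [e] at h2
    have h4 : (2 : ℤ) ^ k ∣ (u : ℤ) - u' := hcop.dvd_of_dvd_mul_left h3
    have hu1 : (u : ℤ) < 2 ^ k := by exact_mod_cast hu
    have hu2 : (u' : ℤ) < 2 ^ k := by exact_mod_cast hu'
    have h5 : (u : ℤ) - u' = 0 := by
      apply Int.eq_zero_of_abs_lt_dvd h4
      rw [abs_lt]; constructor <;> omega
    omega
  have himg : (range (2 ^ k)).image e = range (2 ^ k) := by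
    apply eq_of_subset_of_card_le
    · intro y hy
      rw [mem_image] at hy
      obtain ⟨u, hu, rfl⟩ := hy
      exact hmaps u hu
    · rw [card_image_of_injOn hinj]
  have hPe : ∀ u : ℕ, P (a * u + c) = P (e u) := by
    intro u
    rw [he']
    have h := hP ((a * u + c) % 2 ^ k) ((a * u + c) / 2 ^ k)
    rw [← h]
    congr 1
    have := Int.emod_add_mul_ediv (a * u + c) (2 ^ k)
    rw [mul_comm ((a * u + c) / 2 ^ k)]
    exact this.symm
  calc ∑ u ∈ range (2 ^ k), P (a * u + c) = ∑ u ∈ range (2 ^ k), P (e u) :=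
        sum_congr rfl (fun u _ => hPe u)
    _ = ∑ y ∈ (range (2 ^ k)).image e, P (y : ℕ) := (sum_image (f := fun y : ℕ => P (y : ℤ)) hinj).symm
    _ = ∑ u ∈ range (2 ^ k), P u := by rw [himg]

theorem Tz_add {d : ℤ} (hd : d % 2 = 1) (k : ℕ) (x m : ℤ) :
    ∃ m' : ℤ, Tz d (x + m * 2 ^ (k + 1)) = Tz d x + m' * 2 ^ k := by
  have h2 : m * (2 : ℤ) ^ (k + 1) = 2 * (m * 2 ^ k) := by rw [pow_succ]; ring
  rcases Int.emod_two_eq_zero_or_one x with h | h
  · refine ⟨m, ?_⟩
    simp only [Tz]
    rw [if_pos h, if_pos (by omega)]; omega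
  · refine ⟨3 * m, ?_⟩
    simp only [Tz]
    rw [if_neg (by omega), if_neg (by omega)]
    have h3 : 3 * m * (2 : ℤ) ^ k = 3 * (m * 2 ^ k) := by ring
    rw [h3]; omega

theorem surv_periodic {d : ℤ} (hd : d % 2 = 1) : ∀ (k : ℕ) (s : ℕ × ℤ) (x m : ℤ),
    surv d k s (x + m * 2 ^ k) ↔ surv d k s x := by
  intro k
  induction k with
  | zero => intro s x m; exact Iff.rfl
  | succ k ih =>
    intro s x m
    rw [surv_succ, surv_succ]
    have h2 : m * (2 : ℤ) ^ (k + 1) = 2 * (m * 2 ^ k) := by rw [pow_succ]; ring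
    have hpar : (x + m * 2 ^ (k + 1)) % 2 = x % 2 := by omega
    rw [hpar]
    have hn : ∃ m' : ℤ, nx d s (x + m * 2 ^ (k + 1)) = nx d s x + m' * 2 ^ k := by
      unfold nx
      rw [hpar]
      split_ifs with h
      · refine ⟨m, ?_⟩
        have h3 : (d * s.2) % 2 = 1 := odd_mul hd h.2.1
        omega
      · exact Tz_add hd k x m
    obtain ⟨m', hm'⟩ := hn
    rw [hm', ih]

open Classical in
/-- The proportion of classes modulo `2 ^ k` which survive. -/
theorem count_surv {d : ℤ} (hd : d % 2 = 1) : ∀ (k : ℕ) (s : ℕ × ℤ),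
    ∑ x ∈ range (2 ^ k), (if surv d k s x then (1 : ℝ) else 0) = 2 ^ k * q step (0, 0) k s := by
  intro k
  induction k with
  | zero =>
    intro s
    by_cases h : s = (0, 0)
    · subst h; rw [q_o]; simp [surv]
    · rw [q_zero_ne _ _ h]; simp [surv, h]
  | succ k ih =>
    intro s
    by_cases h : s = (0, 0)
    · subst h; rw [q_o]; simp [surv]
    · rw [q_succ _ _ h, pow_succ, mul_comm (2 ^ k) 2, sum_two]
      have h1 : ∑ u ∈ range (2 ^ k), (if surv d (k + 1) s ((2 * u : ℕ) : ℤ) then (1 : ℝ) else 0) =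
          2 ^ k * q step (0, 0) k (step s false) := by
        rw [← ih]
        apply sum_congr rfl
        intro u _
        have hx : ((2 * u : ℕ) : ℤ) % 2 = 0 := by push_cast; omega
        have hn : nx d s ((2 * u : ℕ) : ℤ) = u := by
          unfold nx
          rw [if_neg (by omega)]
          unfold Tz
          rw [if_pos hx]; push_cast; omega
        have hdec : decide (((2 * u : ℕ) : ℤ) % 2 = 1) = false := by rw [hx]; rfl
        rw [surv_succ, hdec, hn]
        simp [h]
      have h2 : ∑ u ∈ range (2 ^ k), (if surv d (k + 1) s ((2 * u + 1 : ℕ) : ℤ) then (1 : ℝ) else 0) =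
          2 ^ k * q step (0, 0) k (step s true) := by
        rw [← ih]
        have hP : ∀ x m : ℤ, (fun x : ℤ => if surv d k (step s true) x then (1 : ℝ) else 0) (x + m * 2 ^ k)
            = (fun x : ℤ => if surv d k (step s true) x then (1 : ℝ) else 0) x := by
          intro x m
          simp only [surv_periodic hd]
        have hpar : ∀ u : ℕ, ((2 * u + 1 : ℕ) : ℤ) % 2 = 1 := by intro u; push_cast; omega
        by_cases hsw : s.1 = 0 ∧ s.2 % 2 = 1
        · have hodd : (d * s.2) % 2 = 1 := odd_mul hd hsw.2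
          refine Eq.trans ?_ (sum_affine k (fun x : ℤ => if surv d k (step s true) x then (1 : ℝ) else 0)
            hP (a := 1) (by norm_num) ((1 + d * s.2) / 2))
          apply sum_congr rfl
          intro u _
          have hn : nx d s ((2 * u + 1 : ℕ) : ℤ) = 1 * u + (1 + d * s.2) / 2 := by
            unfold nx
            rw [if_pos ⟨hsw.1, hsw.2, hpar u⟩]; push_cast; omega
          have hdec : decide (((2 * u + 1 : ℕ) : ℤ) % 2 = 1) = true := by rw [hpar]; rfl
          rw [surv_succ, hdec, hn]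
          simp [h]
        · refine Eq.trans ?_ (sum_affine k (fun x : ℤ => if surv d k (step s true) x then (1 : ℝ) else 0)
            hP (a := 3) (by norm_num) ((3 + d) / 2))
          apply sum_congr rfl
          intro u _
          have hn : nx d s ((2 * u + 1 : ℕ) : ℤ) = 3 * u + (3 + d) / 2 := by
            unfold nx
            rw [if_neg (fun h' => hsw ⟨h'.1, h'.2.1⟩)]
            unfold Tz
            rw [if_neg (by rw [hpar]; norm_num)]; push_cast; omega
          have hdec : decide (((2 * u + 1 : ℕ) : ℤ) % 2 = 1) = true := by rw [hpar]; rfl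
          rw [surv_succ, hdec, hn]
          simp [h]
      rw [h1, h2]
      ring

open Classical in
theorem count_blocks {d : ℤ} (hd : d % 2 = 1) (k : ℕ) (s : ℕ × ℤ) (M : ℕ) :
    ∑ x ∈ range (M * 2 ^ k), (if surv d k s x then (1 : ℝ) else 0) = M * (2 ^ k * q step (0, 0) k s) := by
  induction M with
  | zero => simp
  | succ M ih =>
    rw [show (M + 1) * 2 ^ k = M * 2 ^ k + 2 ^ k by ring, sum_range_add, ih]
    have : ∑ x ∈ range (2 ^ k), (if surv d k s ((M * 2 ^ k + x : ℕ) : ℤ) then (1 : ℝ) else 0) =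
        ∑ x ∈ range (2 ^ k), (if surv d k s x then (1 : ℝ) else 0) := by
      apply sum_congr rfl
      intro x _
      have e : ((M * 2 ^ k + x : ℕ) : ℤ) = (x : ℤ) + (M : ℤ) * 2 ^ k := by push_cast; ring
      rw [e]
      simp only [surv_periodic hd]
    rw [this, count_surv hd]
    push_cast; ring

open Classical in
/-- Number of survivors up to `N`. -/
theorem count_le {d : ℤ} (hd : d % 2 = 1) (k : ℕ) (s : ℕ × ℤ) (N : ℕ) :
    (#{n ∈ Icc 1 N | surv d k s (n : ℕ)} : ℝ) ≤ (N + 2 ^ k + 1) * q step (0, 0) k s := by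
  have hq := q_nonneg step (0, 0) k s
  have h2 : 0 < 2 ^ k := by positivity
  set M := N / 2 ^ k + 1 with hM
  have hNM : N < M * 2 ^ k := by
    have := Nat.lt_div_mul_add (a := N) h2
    rw [hM, add_mul, one_mul]; exact this
  have h1 : (#{n ∈ Icc 1 N | surv d k s (n : ℕ)} : ℝ) ≤
      ∑ x ∈ range (M * 2 ^ k), (if surv d k s x then (1 : ℝ) else 0) := by
    rw [card_filter]
    push_cast
    apply sum_le_sum_of_subset_of_nonneg
    · intro n hn
      rw [mem_Icc] at hn
      rw [mem_range]; omega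
    · intro n _ _
      split_ifs <;> norm_num
  rw [count_blocks hd] at h1
  refine h1.trans ?_
  rw [← mul_assoc]
  apply mul_le_mul_of_nonneg_right _ hq
  have h3 : M * 2 ^ k ≤ N + 2 ^ k := by
    rw [hM, add_mul, one_mul]
    have := Nat.div_mul_le_self N (2 ^ k)
    omega
  have h4 : (M : ℝ) * 2 ^ k ≤ N + 2 ^ k := by exact_mod_cast h3
  linarith

end Pool.Agent.H499R2.CO
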