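import Mathlib
import Pool.Agent.H499R2.CO.C

set_option autoImplicit false

namespace Pool.Agent.H499R2.CO

open Finset

/-! Quantitative potential theory: preparations. -/

theorem v_le_two_add {j : ℕ} (hj : 1 ≤ j) : v j ≤ 2 + padicValNat 2 j := by
  unfold v
  rcases Nat.even_or_odd j with he | ho
  · have h := padicValNat.pow_two_sub_pow (x := 3) (y := 1) (n := j) (by norm_num) (by norm_num)
      (by norm_num) (by omega) he
    have h4 : padicValNat 2 (3 + 1) = 2 := by
      rw [show (3 + 1 : ℕ) = 2 ^ 2 by norm_num, padicValNat.prime_pow]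
    have h2 : padicValNat 2 (3 - 1) = 1 := by
      rw [show (3 - 1 : ℕ) = 2 by norm_num]; exact padicValNat_self
    rw [one_pow, h4, h2] at h
    omega
  · by_contra hcon
    push Not at hcon
    have h1 : 2 ^ 2 ∣ 3 ^ j - 1 := by
      rw [padicValNat_dvd_iff]
      right; omega
    obtain ⟨m, hm⟩ := ho
    have h3 : 3 ^ j % 4 = 3 := by
      rw [hm, pow_add, pow_mul, Nat.mul_mod, Nat.pow_mod]
      norm_num
    have := Nat.one_le_pow j 3 (by norm_num)
    omega

theorem sum_v_le (M : ℕ) : ∑ j ∈ range (M + 1), v j ≤ 3 * M := by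
  have h1 : ∀ M : ℕ, ∑ j ∈ range (M + 1), v j ≤ 2 * M + padicValNat 2 M.factorial := by
    intro M
    induction M with
    | zero => simp [v]
    | succ M ih =>
      rw [sum_range_succ, Nat.factorial_succ, padicValNat.mul (by omega) (Nat.factorial_ne_zero _)]
      have := v_le_two_add (j := M + 1) (by omega)
      omega
  have h2 := h1 M
  have h3 : padicValNat 2 M.factorial ≤ M := by
    have := sub_one_mul_padicValNat_factorial (p := 2) M
    simp only [Nat.add_one_sub_one, one_mul] at this
    omega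
  omega

theorem H_le_v (i : ℕ) (r : ℤ) : H i r ≤ v i + 1 := by
  unfold H
  rcases Nat.eq_zero_or_pos i with rfl | hi
  · simp
  rw [if_neg hi.ne']
  have h1 : #{t ∈ Icc 1 (v i - 1) | (2 : ℤ) ^ t ∣ r} ≤ v i - 1 := by
    refine (card_filter_le _ _).trans ?_
    simp
  have h3 := v_pos hi
  split_ifs <;> omega

/-- The weight at a level. -/
def c (j : ℕ) : ℕ := v (j + 1) + v (j - 1) + 4

def D (m : ℕ) : ℕ := ∑ j ∈ range (m + 1), c j

theorem D_succ (m : ℕ) : D (m + 1) = D m + c (m + 1) := by
  rw [D, sum_range_succ]; rfl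

theorem D_le (M : ℕ) : D M ≤ 10 * (M + 1) := by
  have h1 : ∑ j ∈ range (M + 1), v (j + 1) ≤ 3 * (M + 1) := by
    have h := sum_v_le (M + 1)
    rw [sum_range_succ'] at h
    omega
  have h2 : ∑ j ∈ range (M + 1), v (j - 1) ≤ 3 * M := by
    have h := sum_v_le M
    rw [sum_range_succ'] 
    simp only [Nat.add_sub_cancel, zero_tsub]
    rw [sum_range_succ] at h
    have h0 : v 0 = 0 := by simp [v]
    omega
  unfold D c
  rw [sum_add_distrib, sum_add_distrib]
  simp only [sum_const, card_range, smul_eq_mul]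
  omega

/-- The concave function of the level. -/
noncomputable def f (M i : ℕ) : ℝ := ∑ m ∈ range i, 2 * max ((D M : ℝ) - D m) 0

theorem f_nonneg (M i : ℕ) : 0 ≤ f M i := sum_nonneg (fun m _ => by positivity)

theorem f_succ (M i : ℕ) : f M (i + 1) = f M i + 2 * max ((D M : ℝ) - D i) 0 := sum_range_succ _ _

theorem D_mono : Monotone D := monotone_nat_of_le_succ (fun m => by rw [D_succ]; omega)

theorem f_second {M j : ℕ} (h : j + 1 ≤ M) :
    f M (j + 2) + f M j = 2 * f M (j + 1) - 2 * (c (j + 1) : ℝ) := by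
  rw [f_succ M (j + 1), f_succ M j]
  have h1 : (D (j + 1) : ℝ) ≤ D M := by exact_mod_cast D_mono h
  have h2 : (D j : ℝ) ≤ D M := by exact_mod_cast D_mono (by omega : j ≤ M)
  rw [max_eq_left (by linarith), max_eq_left (by linarith)]
  have h3 : (D (j + 1) : ℝ) = D j + c (j + 1) := by exact_mod_cast D_succ j
  linarith

theorem f_one (M : ℕ) : f M 1 ≤ 2 * D M := by
  rw [f_succ M 0]
  have h0 : f M 0 = 0 := by simp [f]
  rw [h0, zero_add]
  have h1 : (0 : ℝ) ≤ D 0 := by positivity
  have h2 : (0 : ℝ) ≤ D M := by positivity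
  have : max ((D M : ℝ) - D 0) 0 ≤ D M := max_le (by linarith) h2
  linarith

theorem f_le (M i : ℕ) : f M i ≤ 2 * M * D M := by
  have h0 : ∀ m, M ≤ m → max ((D M : ℝ) - D m) 0 = 0 := by
    intro m hm
    apply max_eq_right
    have : (D M : ℝ) ≤ D m := by exact_mod_cast D_mono hm
    linarith
  have h2 : (0 : ℝ) ≤ D M := by positivity
  have h1 : ∀ m, 2 * max ((D M : ℝ) - D m) 0 ≤ 2 * D M := by
    intro m
    have h1 : (0 : ℝ) ≤ D m := by positivity
    have : max ((D M : ℝ) - D m) 0 ≤ D M := max_le (by linarith) h2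
    linarith
  have h3 : f M i ≤ f M M := by
    rcases le_total i M with h | h
    · unfold f
      apply sum_le_sum_of_subset_of_nonneg
      · intro x hx; rw [mem_range] at hx ⊢; omega
      · intro x _ _; positivity
    · unfold f
      apply le_of_eq
      symm
      apply sum_subset
      · intro x hx; rw [mem_range] at hx ⊢; omega
      · intro x _ hx
        rw [mem_range] at hx
        rw [h0 x (by omega), mul_zero]
  refine h3.trans ?_
  unfold f
  calc ∑ m ∈ range M, 2 * max ((D M : ℝ) - D m) 0 ≤ ∑ m ∈ range M, 2 * (D M : ℝ) :=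
        sum_le_sum (fun m _ => h1 m)
    _ = 2 * M * D M := by rw [sum_const, card_range, nsmul_eq_mul]; ring

end Pool.Agent.H499R2.CO
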