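import Mathlib
import Pool.Agent.H499R2.CO.Q1

set_option autoImplicit false

namespace Pool.Agent.H499R2.CO

open Finset

/-! Quantitative potential theory: the potentials. -/

/-- One step average. -/
noncomputable def P (F : ℕ × ℤ → ℝ) (s : ℕ × ℤ) : ℝ := (F (step s false) + F (step s true)) / 2

theorem P_mono {F G : ℕ × ℤ → ℝ} (h : ∀ s, F s ≤ G s) (s : ℕ × ℤ) : P F s ≤ P G s := by
  unfold P
  have := h (step s false); have := h (step s true); linarith

/-- The part of the potential depending on `r`. -/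
noncomputable def part (s : ℕ × ℤ) : ℝ :=
  (11 / 20 : ℝ) ^ s.1 * w s.2 + (24 / 25 : ℝ) ^ s.1 * H s.1 s.2

theorem part_nonneg (s : ℕ × ℤ) : 0 ≤ part s := by
  unfold part
  have := w_nonneg s.2
  positivity

theorem W_eq (s : ℕ × ℤ) : W s = g s.1 + part s := by
  unfold W part; ring

theorem part_even {i : ℕ} (hi : 1 ≤ i) {r : ℤ} (hr : r % 2 = 0) :
    part (step (i, r) false) + part (step (i, r) true) ≤ 2 * part (i, r) := by
  have h := W_even hi hr
  rw [W_eq, W_eq, W_eq, step_ef hr, step_et hr] at h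
  rw [step_ef hr, step_et hr]
  simp only at h
  linarith

theorem part_odd {j : ℕ} {r : ℤ} (hr : r % 2 = 1) :
    part (step (j + 1, r) false) + part (step (j + 1, r) true) ≤ 2 * part (j + 1, r)
      + (24 / 25 : ℝ) ^ j * (4 * j + 8) := by
  have h := W_odd (j := j) hr
  rw [W_eq, W_eq, W_eq, step_sf hr, step_st hr] at h
  rw [step_sf hr, step_st hr]
  simp only at h
  have hg : g (j + 2) + g j = 2 * g (j + 1) - 1 / (((j : ℝ) + 1) * ((j : ℝ) + 2)) := by
    have a1 := g_succ (j + 1)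
    have a2 := g_succ j
    have e : (1 : ℝ) / (((j : ℝ) + 1) * ((j : ℝ) + 2)) = 1 / ((j : ℝ) + 1) - 1 / ((j : ℝ) + 2) := by
      field_simp; ring
    have e2 : (((j + 1 : ℕ) : ℝ) + 1) = (j : ℝ) + 2 := by push_cast; ring
    rw [e2] at a1
    rw [e, show j + 2 = j + 1 + 1 from rfl, a1]
    linarith
  have h2 : 0 ≤ 0.04 * (11 / 20 : ℝ) ^ (j + 1) * w r := by
    have := w_nonneg r
    positivity
  linarith

theorem part_odd_zero {r : ℤ} (hr : r % 2 = 1) :
    part (step (0, r) false) + part (step (0, r) true) ≤ 1.35 * w r + 7 := by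
  have h := W_odd_zero hr
  rw [W_eq, W_eq, step_0f hr, step_0t hr] at h
  rw [step_0f hr, step_0t hr]
  have hg : g 1 = 1 := by rw [g_succ]; simp [g]
  simp only [hg] at h
  linarith

theorem w_even_bounds {i : ℕ} {r : ℤ} (hr : r % 2 = 0) :
    w (r / 2) ≤ 0.7072 * w r ∧
      w ((3 * r + 1 - 3 ^ i) / 2) ≤ 1.2248 * w r + 0.7072 * √ ((3 : ℝ) ^ i) := by
  have hodd : Odd ((3 : ℤ) ^ i) := Odd.pow (by decide)
  obtain ⟨m, hm⟩ := hodd
  constructor
  · apply w_half_le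
    rw [abs_cast_half (show 2 * (r / 2) = r by omega)]
  · have h := w_le (r := r) (a := (3 * r + 1 - 3 ^ i) / 2) (m := 3) (c := 3 ^ i) (by positivity)
      (by norm_num) (by
        rw [abs_cast_half (show 2 * ((3 * r + 1 - 3 ^ i) / 2) = 3 * r + 1 - 3 ^ i by rw [hm]; omega)]
        push_cast
        have h3 : (1 : ℝ) ≤ 3 ^ i := one_le_pow₀ (by norm_num)
        rw [abs_le]
        constructor <;> rcases abs_cases (r : ℝ) with ⟨h, _⟩ | ⟨h, _⟩ <;> rw [h] <;> linarith)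
    refine h.trans ?_
    have := mul_le_mul_of_nonneg_right sqrt_three_half_le (w_nonneg r)
    linarith

theorem w_odd_bounds {j : ℕ} {r : ℤ} (hr : r % 2 = 1) :
    w ((3 * r + 1) / 2) ≤ 1.2248 * w r + 0.7072 ∧ w ((1 - 3 * r) / 2) ≤ 1.2248 * w r + 0.7072 ∧
      w ((r - 3 ^ j) / 2) ≤ 0.7072 * w r + 0.7072 * √ ((3 : ℝ) ^ j) := by
  have hodd : Odd ((3 : ℤ) ^ j) := Odd.pow (by decide)
  obtain ⟨m, hm⟩ := hodd
  refine ⟨?_, ?_, ?_⟩
  · have h := w_le (r := r) (a := (3 * r + 1) / 2) (m := 3) (c := 1) (by positivity)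
      (by norm_num) (by
        rw [abs_cast_half (show 2 * ((3 * r + 1) / 2) = 3 * r + 1 by omega)]
        push_cast
        rw [abs_le]
        constructor <;> rcases abs_cases (r : ℝ) with ⟨h, _⟩ | ⟨h, _⟩ <;> rw [h] <;> linarith)
    refine h.trans ?_
    have := mul_le_mul_of_nonneg_right sqrt_three_half_le (w_nonneg r)
    rw [Real.sqrt_one]
    linarith
  · have h := w_le (r := r) (a := (1 - 3 * r) / 2) (m := 3) (c := 1) (by positivity)
      (by norm_num) (by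
        rw [abs_cast_half (show 2 * ((1 - 3 * r) / 2) = 1 - 3 * r by omega)]
        push_cast
        rw [abs_le]
        constructor <;> rcases abs_cases (r : ℝ) with ⟨h, _⟩ | ⟨h, _⟩ <;> rw [h] <;> linarith)
    refine h.trans ?_
    have := mul_le_mul_of_nonneg_right sqrt_three_half_le (w_nonneg r)
    rw [Real.sqrt_one]
    linarith
  · have h := w_le (r := r) (a := (r - 3 ^ j) / 2) (m := 1) (c := 3 ^ j) (by positivity)
      (by norm_num) (by
        rw [abs_cast_half (show 2 * ((r - 3 ^ j) / 2) = r - 3 ^ j by rw [hm]; omega)]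
        push_cast
        have h3 : (1 : ℝ) ≤ 3 ^ j := one_le_pow₀ (by norm_num)
        rw [abs_le]
        constructor <;> rcases abs_cases (r : ℝ) with ⟨h, _⟩ | ⟨h, _⟩ <;> rw [h] <;> linarith)
    refine h.trans ?_
    have := mul_le_mul_of_nonneg_right sqrt_half_le (w_nonneg r)
    linarith

/-- The size of `r` relative to the level. -/
noncomputable def pw (s : ℕ × ℤ) : ℝ := (11 / 20 : ℝ) ^ s.1 * w s.2

theorem pw_nonneg (s : ℕ × ℤ) : 0 ≤ pw s := by
  unfold pw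
  have := w_nonneg s.2
  positivity

/-- Contraction. -/
theorem P_pw (s : ℕ × ℤ) : P pw s ≤ 0.98 * pw s + 0.75 := by
  obtain ⟨i, r⟩ := s
  unfold P
  have hw := w_nonneg r
  rcases Int.emod_two_eq_zero_or_one r with hr | hr
  · rw [step_ef hr, step_et hr]
    obtain ⟨h1, h2⟩ := w_even_bounds (i := i) hr
    have h4 := lam_rho i
    have hl : (0 : ℝ) < (11 / 20) ^ i := by positivity
    have hρ1 : (24 / 25 : ℝ) ^ i ≤ 1 := pow_le_one₀ (by norm_num) (by norm_num)
    simp only [pw]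
    have e1 : (11 / 20 : ℝ) ^ i * w (r / 2) ≤ (11 / 20 : ℝ) ^ i * (0.7072 * w r) :=
      mul_le_mul_of_nonneg_left h1 hl.le
    have e2 : (11 / 20 : ℝ) ^ i * w ((3 * r + 1 - 3 ^ i) / 2) ≤
        (11 / 20 : ℝ) ^ i * (1.2248 * w r + 0.7072 * √ ((3 : ℝ) ^ i)) :=
      mul_le_mul_of_nonneg_left h2 hl.le
    have e4 : 0 ≤ (11 / 20 : ℝ) ^ i * w r := by positivity
    nlinarith
  · rcases i with _ | j
    · rw [step_0f hr, step_0t hr]
      obtain ⟨h1, h2, _⟩ := w_odd_bounds (j := 0) hr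
      simp only [pw, pow_one, pow_zero, one_mul]
      linarith
    · rw [step_sf hr, step_st hr]
      obtain ⟨h1, _, h2⟩ := w_odd_bounds (j := j) hr
      have h4 := lam_rho j
      have hl : (0 : ℝ) < (11 / 20) ^ j := by positivity
      have hl1 : (11 / 20 : ℝ) ^ j ≤ 1 := pow_le_one₀ (by norm_num) (by norm_num)
      have hρ1 : (24 / 25 : ℝ) ^ j ≤ 1 := pow_le_one₀ (by norm_num) (by norm_num)
      simp only [pw]
      have p2 : (11 / 20 : ℝ) ^ (j + 2) = (11 / 20) ^ j * (121 / 400) := by rw [pow_add]; norm_num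
      have p1 : (11 / 20 : ℝ) ^ (j + 1) = (11 / 20) ^ j * (11 / 20) := by rw [pow_succ]
      have e1 : (11 / 20 : ℝ) ^ (j + 2) * w ((3 * r + 1) / 2) ≤
          (11 / 20 : ℝ) ^ (j + 2) * (1.2248 * w r + 0.7072) := mul_le_mul_of_nonneg_left h1 (by positivity)
      have e2 : (11 / 20 : ℝ) ^ j * w ((r - 3 ^ j) / 2) ≤
          (11 / 20 : ℝ) ^ j * (0.7072 * w r + 0.7072 * √ ((3 : ℝ) ^ j)) :=
        mul_le_mul_of_nonneg_left h2 hl.le
      have e6 : 0 ≤ (11 / 20 : ℝ) ^ j * w r := by positivity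
      rw [p2] at e1 ⊢
      rw [p1]
      nlinarith

/-- A bounded concave function of the level, plus `part`. -/
noncomputable def Vp (s : ℕ × ℤ) : ℝ := 480000 * (1 - (49 / 50 : ℝ) ^ s.1) + part s

theorem Vp_nonneg (s : ℕ × ℤ) : 0 ≤ Vp s := by
  unfold Vp
  have := part_nonneg s
  have : (49 / 50 : ℝ) ^ s.1 ≤ 1 := pow_le_one₀ (by norm_num) (by norm_num)
  linarith

theorem Vp_even {i : ℕ} (hi : 1 ≤ i) {r : ℤ} (hr : r % 2 = 0) :
    Vp (step (i, r) false) + Vp (step (i, r) true) ≤ 2 * Vp (i, r) := by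
  have h := part_even hi hr
  rw [step_ef hr, step_et hr] at h ⊢
  simp only [Vp]
  linarith

theorem rho_kappa (j : ℕ) : (24 / 25 : ℝ) ^ j * (4 * j + 8) ≤ 192 * (49 / 50 : ℝ) ^ j := by
  have h1 : (1 : ℝ) + j * (1 / 48) ≤ (1 + 1 / 48) ^ j := one_add_mul_le_pow (by norm_num) j
  have h2 : (4 * (j : ℝ) + 8) ≤ 192 * (1 + 1 / 48) ^ j := by
    have : (0 : ℝ) ≤ j := by positivity
    linarith
  have h3 : (49 / 50 : ℝ) ^ j = (24 / 25 : ℝ) ^ j * (1 + 1 / 48) ^ j := by
    rw [← mul_pow]; norm_num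
  rw [h3]
  have h4 : (0 : ℝ) < (24 / 25) ^ j := by positivity
  have := mul_le_mul_of_nonneg_left h2 h4.le
  linarith

theorem Vp_odd {j : ℕ} {r : ℤ} (hr : r % 2 = 1) :
    Vp (step (j + 1, r) false) + Vp (step (j + 1, r) true) ≤ 2 * Vp (j + 1, r) := by
  have h := part_odd (j := j) hr
  rw [step_sf hr, step_st hr] at h ⊢
  simp only [Vp]
  have h2 := rho_kappa j
  have p2 : (49 / 50 : ℝ) ^ (j + 2) = (49 / 50) ^ j * (2401 / 2500) := by rw [pow_add]; norm_num
  have p1 : (49 / 50 : ℝ) ^ (j + 1) = (49 / 50) ^ j * (49 / 50) := by rw [pow_succ]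
  rw [p1, p2]
  linarith

/-- The finite set. -/
def FF : Set (ℕ × ℤ) := {s | s.1 = 0 ∧ |s.2| ≤ 10 ^ 9}

theorem FF_finite : FF.Finite := by
  refine Set.Finite.subset ((Set.finite_singleton 0).prod (Set.finite_Icc (-(10 : ℤ) ^ 9) (10 ^ 9))) ?_
  rintro ⟨i, r⟩ ⟨h1, h2⟩
  simp only at h1 h2
  exact Set.mem_prod.2 ⟨h1, Set.mem_Icc.2 (abs_le.1 h2)⟩

theorem w_big {r : ℤ} (h : ¬ |r| ≤ 10 ^ 9) : 31000 ≤ w r := by
  unfold w
  push Not at h
  have h1 : ((10 : ℝ) ^ 9) < |(r : ℝ)| := by exact_mod_cast h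
  apply Real.le_sqrt_of_sq_le
  nlinarith

theorem Vp_zero {r : ℤ} (h : ¬ |r| ≤ 10 ^ 9) :
    Vp (step (0, r) false) + Vp (step (0, r) true) ≤ 2 * Vp (0, r) - 4 := by
  have hw := w_big h
  have h0 : Vp (0, r) = w r := by simp [Vp, part, H]
  rcases Int.emod_two_eq_zero_or_one r with hr | hr
  · rw [step_ef hr, step_et hr]
    obtain ⟨h1, h2⟩ := w_even_bounds (i := 0) hr
    have e1 : Vp (0, r / 2) = w (r / 2) := by simp [Vp, part, H]
    have e2 : Vp (0, (3 * r + 1 - 3 ^ 0) / 2) = w ((3 * r + 1 - 3 ^ 0) / 2) := by simp [Vp, part, H]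
    rw [e1, e2, h0]
    simp only [pow_zero, Real.sqrt_one] at h2
    simp only [pow_zero]
    linarith
  · have h1 := part_odd_zero hr
    rw [h0]
    rw [step_0f hr, step_0t hr] at h1 ⊢
    simp only [Vp]
    rw [pow_one]
    linarith

end Pool.Agent.H499R2.CO
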