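import Mathlib
import Pool.Agent.H499R2.CO.Q6
import Pool.Agent.H499R2.NDClass

set_option autoImplicit false

namespace Pool.Agent.H499R2.CO

open Finset Filter Topology Pool.Agent.H499R2.ND

/-! Sufficient sets. -/

theorem Ci_eq (x : ℤ) : Ci x = Cz x := rfl

theorem Ci_iter_eq (k : ℕ) (x : ℤ) : Ci^[k] x = Cz^[k] x := rfl

/-- Reaching `1` is merging with the trajectory of `1`. -/
theorem reach_of_merge {n : ℕ} (h : (n : ℤ) ∈ Kc 1) : ∃ k, Cn^[k] n = 1 := by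
  obtain ⟨i, j, h⟩ := h
  rw [Ci_iter_eq, Ci_iter_eq, Cz_iter_cast] at h
  have h1 : ∀ j : ℕ, ∃ l : ℕ, Cn^[l] (Cn^[j] 1) = 1 := by
    have hper : Cn^[3] 1 = 1 := by decide
    intro j
    have h3 : ∀ m : ℕ, Cn^[3 * m] 1 = 1 := by
      intro m
      induction m with
      | zero => rfl
      | succ m ih => rw [show 3 * (m + 1) = 3 * m + 3 by ring, Function.iterate_add_apply, hper, ih]
    refine ⟨2 * j, ?_⟩
    rw [← Function.iterate_add_apply, show 2 * j + j = 3 * j by ring]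
    exact h3 j
  obtain ⟨l, hl⟩ := h1 j
  have h2 : Cz^[j] (1 : ℤ) = ((Cn^[j] 1 : ℕ) : ℤ) := by
    have := Cz_iter_cast j 1
    simpa using this
  rw [h2] at h
  have h3 : Cn^[i] n = Cn^[j] 1 := by exact_mod_cast h
  exact ⟨l + i, by rw [Function.iterate_add_apply, h3, hl]⟩

theorem merge_of_reach {n : ℕ} (h : ∃ k, Cn^[k] n = 1) : (n : ℤ) ∈ Kc 1 := by
  obtain ⟨k, hk⟩ := h
  refine ⟨k, 0, ?_⟩
  rw [Ci_iter_eq, Cz_iter_cast, hk]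
  rfl

theorem merge_of_coal {n m t : ℕ} (h : Cn^[t] n = Cn^[t] m) : (n : ℤ) ∈ Kc (m : ℤ) := by
  refine ⟨t, t, ?_⟩
  rw [Ci_iter_eq, Ci_iter_eq, Cz_iter_cast, Cz_iter_cast, h]

open Classical in
/-- Lower bound for the number of elements of a class. -/
theorem class_many {b : ℕ} (hb : 1 ≤ b) : ∃ δ : ℝ, 0 < δ ∧ ∀ᶠ N : ℕ in atTop,
    δ * N ≤ (#{n ∈ Icc 1 N | ((n : ℕ) : ℤ) ∈ Kc (b : ℤ)} : ℝ) := by
  obtain ⟨δ, hδ, hlim⟩ := class_density (s := 1) (Or.inl rfl) (a := (b : ℤ)) (by rw [one_mul]; exact_mod_cast hb)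
  have hlim' := nat_limit hlim
  refine ⟨δ / 2, by positivity, ?_⟩
  filter_upwards [hlim'.eventually (lt_mem_nhds (show δ / 2 < δ by linarith)), eventually_gt_atTop 0] with N hN hN0
  have hNr : (0 : ℝ) < N := by exact_mod_cast hN0
  rw [lt_div_iff₀ hNr] at hN
  refine hN.le.trans ?_
  unfold G
  have : (pos (Ks 1 (b : ℤ)) ((N : ℝ) + 1)).card ≤ #{n ∈ Icc 1 N | ((n : ℕ) : ℤ) ∈ Kc (b : ℤ)} := by
    apply card_le_card_of_injOn (fun x : ℤ => x.toNat)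
    · intro x hx
      rw [mem_coe, mem_pos] at hx
      rw [mem_coe, mem_filter, mem_Icc]
      beta_reduce
      obtain ⟨⟨h1, h2⟩, h3⟩ := hx
      have h4 : x < N + 1 := by
        have : (x : ℝ) < ((N + 1 : ℤ) : ℝ) := by push_cast; exact h2
        exact_mod_cast this
      have h5 : ((x.toNat : ℕ) : ℤ) = x := Int.toNat_of_nonneg (by omega)
      refine ⟨⟨by omega, by omega⟩, ?_⟩
      rw [h5]
      have h6 : (1 : ℤ) * x ∈ Kc (b : ℤ) := h3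
      rwa [one_mul] at h6
    · intro x hx y hy hxy
      rw [mem_coe, mem_pos] at hx hy
      simp only at hxy
      have := hx.1.1; have := hy.1.1
      omega
  exact_mod_cast this

open Classical in
/-- SUFFICIENT SETS. -/
theorem sufficient (S : Set ℕ)
    (hS : ∀ ε : ℝ, 0 < ε → ∃ c : ℝ, 0 < c ∧ ∀ θ : ℝ, 0 < θ → ∃ᶠ N : ℕ in atTop,
      (#{n ∈ Icc 1 N | (#{j ∈ Icc 1 ⌊(N : ℝ) ^ θ⌋₊ | n + j ∈ S} : ℝ) < c * ⌊(N : ℝ) ^ θ⌋₊} : ℝ) ≤ ε * N)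
    (h1 : ∀ m ∈ S, 1 ≤ m → ∃ k, Cn^[k] m = 1) : ∀ n ≥ 1, ∃ k, Cn^[k] n = 1 := by
  intro b hb
  apply reach_of_merge
  by_contra hcon
  obtain ⟨δ, hδ, hclass⟩ := class_many hb
  obtain ⟨c, hc, hcθ⟩ := hS (δ / 4) (by positivity)
  obtain ⟨θ, hθ, N0, hN0⟩ := solid_n (ε := δ / 4) (κ := c / 2) (by positivity) (by positivity)
  have hev : ∀ᶠ N : ℕ in atTop, 1 ≤ ⌊(N : ℝ) ^ θ⌋₊ := by
    filter_upwards [eventually_ge_atTop 1] with N hN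
    rw [Nat.one_le_floor_iff]
    exact Real.one_le_rpow (by exact_mod_cast hN) hθ.le
  obtain ⟨N, hN1, ⟨⟨hN2, hN3⟩, hN4⟩, hN5⟩ :=
    ((hcθ θ hθ).and_eventually (((hclass.and (eventually_ge_atTop N0)).and hev).and
      (eventually_gt_atTop 0))).exists
  have hNr : (0 : ℝ) < N := by exact_mod_cast hN5
  set Hh := ⌊(N : ℝ) ^ θ⌋₊ with hHh
  have h2 := hN0 N hN3
  set K := ({n ∈ Icc 1 N | ((n : ℕ) : ℤ) ∈ Kc (b : ℤ)} : Finset ℕ) with hK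
  set E1 := ({n ∈ Icc 1 N | (#{j ∈ Icc 1 Hh | n + j ∈ S} : ℝ) < c * Hh} : Finset ℕ) with hE1
  set E2 := ({n ∈ Icc 1 N | c / 2 * Hh <
      (#{j ∈ Icc 1 Hh | ¬ ∃ t, 2 ^ t ≤ N ∧ Cn^[t] n = Cn^[t] (n + j)} : ℝ)} : Finset ℕ) with hE2
  have hex : ∃ n ∈ K, n ∉ E1 ∧ n ∉ E2 := by
    by_contra hno
    push Not at hno
    have hsub : K ⊆ E1 ∪ E2 := by
      intro n hn
      rw [mem_union]
      by_cases h : n ∈ E1
      · exact Or.inl h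
      · exact Or.inr (hno n hn h)
    have h3 : (#K : ℝ) ≤ #E1 + #E2 := by
      exact_mod_cast (card_le_card hsub).trans (card_union_le _ _)
    have h4 : (#E1 : ℝ) ≤ δ / 4 * N := hN1
    have h5 : (#E2 : ℝ) ≤ δ / 4 * N := h2
    have h6 : 0 < δ * N := by positivity
    linarith
  obtain ⟨n, hnK, hn1, hn2⟩ := hex
  rw [hK, mem_filter] at hnK
  have a1 : c * Hh ≤ (#{j ∈ Icc 1 Hh | n + j ∈ S} : ℝ) := by
    by_contra h
    push Not at h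
    exact hn1 (by rw [hE1, mem_filter]; exact ⟨hnK.1, h⟩)
  have a2 : (#{j ∈ Icc 1 Hh | ¬ ∃ t, 2 ^ t ≤ N ∧ Cn^[t] n = Cn^[t] (n + j)} : ℝ) ≤ c / 2 * Hh := by
    by_contra h
    rw [not_le] at h
    exact hn2 (by rw [hE2, mem_filter]; exact ⟨hnK.1, h⟩)
  have hHr : (1 : ℝ) ≤ Hh := by exact_mod_cast hN4
  have a3 : ∃ j ∈ ({j ∈ Icc 1 Hh | n + j ∈ S} : Finset ℕ), j ∉
      ({j ∈ Icc 1 Hh | ¬ ∃ t, 2 ^ t ≤ N ∧ Cn^[t] n = Cn^[t] (n + j)} : Finset ℕ) := by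
    by_contra hno
    have hno' : ∀ j ∈ ({j ∈ Icc 1 Hh | n + j ∈ S} : Finset ℕ), j ∈
      ({j ∈ Icc 1 Hh | ¬ ∃ t, 2 ^ t ≤ N ∧ Cn^[t] n = Cn^[t] (n + j)} : Finset ℕ) := by
      intro j hj
      by_contra hcon2
      exact hno ⟨j, hj, hcon2⟩
    have h3 := card_le_card (show ({j ∈ Icc 1 Hh | n + j ∈ S} : Finset ℕ) ⊆
      ({j ∈ Icc 1 Hh | ¬ ∃ t, 2 ^ t ≤ N ∧ Cn^[t] n = Cn^[t] (n + j)} : Finset ℕ) from hno')
    have h4 : (#{j ∈ Icc 1 Hh | n + j ∈ S} : ℝ) ≤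
      (#{j ∈ Icc 1 Hh | ¬ ∃ t, 2 ^ t ≤ N ∧ Cn^[t] n = Cn^[t] (n + j)} : ℝ) := by exact_mod_cast h3
    have h5 : 0 < c * Hh := by positivity
    linarith
  obtain ⟨j, hj1, hj2⟩ := a3
  rw [mem_filter] at hj1
  have hco : ∃ t, 2 ^ t ≤ N ∧ Cn^[t] n = Cn^[t] (n + j) := by
    by_contra h
    exact hj2 (by rw [mem_filter]; exact ⟨hj1.1, h⟩)
  obtain ⟨t, _, ht⟩ := hco
  have b1 : (n : ℤ) ∈ Kc ((n + j : ℕ) : ℤ) := merge_of_coal ht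
  have b2 : ((n + j : ℕ) : ℤ) ∈ Kc 1 := merge_of_reach (h1 _ hj1.2 (by rw [mem_Icc] at hnK; omega))
  have b3 : (n : ℤ) ∈ Kc 1 := Kc_trans b1 b2
  exact hcon (Kc_trans (Kc_symm hnK.2) b3)

end Pool.Agent.H499R2.CO
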