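import Mathlib
import Pool.Agent.H499R2.CO.R4
import Pool.Agent.H499R2.NDCor

set_option autoImplicit false

namespace Pool.Agent.H499R2.CO

open Finset Filter Topology

theorem ncard_filter (P : ℕ → Prop) [DecidablePred P] (N : ℕ) :
    {n : ℕ | 1 ≤ n ∧ n ≤ N ∧ P n}.ncard = #{n ∈ Icc 1 N | P n} := by
  rw [← Set.ncard_coe_finset]
  congr 1
  ext n
  simp only [coe_filter, mem_Icc, Set.mem_ofPred_eq]
  tauto

/-- The positive integers with the property `P` have natural density `l`. -/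
def HD (P : ℕ → Prop) (l : ℝ) : Prop :=
  Tendsto (fun N : ℕ => ({n : ℕ | 1 ≤ n ∧ n ≤ N ∧ P n}.ncard : ℝ) / N) atTop (𝓝 l)

open Classical in
theorem HD_iff {P : ℕ → Prop} {l : ℝ} :
    HD P l ↔ Tendsto (fun N : ℕ => (#{n ∈ Icc 1 N | P n} : ℝ) / N) atTop (𝓝 l) := by
  unfold HD
  simp only [ncard_filter]

theorem HD_congr {E P Q : ℕ → Prop} {l : ℝ} (hE : HD E 1) (hP : HD P l)
    (h : ∀ n, 1 ≤ n → E n → (P n ↔ Q n)) : HD Q l := by
  classical
  rw [HD_iff] at *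
  exact dens_congr hE hP h

theorem HD_not {P : ℕ → Prop} {l : ℝ} (hP : HD P l) : HD (fun n => ¬ P n) (1 - l) := by
  classical
  have h1 := (tendsto_const_nhds (x := (1 : ℝ))).sub hP
  refine h1.congr' ?_
  filter_upwards [eventually_gt_atTop 0] with N hN
  have hNr : (0 : ℝ) < N := by exact_mod_cast hN
  have hc : {n : ℕ | 1 ≤ n ∧ n ≤ N ∧ P n}.ncard + {n : ℕ | 1 ≤ n ∧ n ≤ N ∧ ¬ P n}.ncard = N := by
    rw [ncard_filter P, ncard_filter (fun n => ¬ P n), card_filter_add_card_filter_not]; simp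
  have hc' : ({n : ℕ | 1 ≤ n ∧ n ≤ N ∧ P n}.ncard : ℝ) + ({n : ℕ | 1 ≤ n ∧ n ≤ N ∧ ¬ P n}.ncard : ℝ) = N := by
    exact_mod_cast hc
  rw [eq_div_iff hNr.ne', sub_mul, one_mul, div_mul_cancel₀ _ hNr.ne']
  linarith

/-- An invariant set and the runs: for almost all `n` either the whole run is in the set or nothing
of it. -/
theorem run_inv {s : ℤ} (hs : s = 1 ∨ s = -1) {g : ℕ → ℕ} (hg : Slow g) {R : Set ℤ}
    (hR : ∀ x, x ∈ R ↔ Tz 1 x ∈ R) {l : ℝ} (hl : HD (fun n => s * (n : ℤ) ∈ R) l) :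
    HD (fun n => ∀ h : ℕ, h ≤ g n → s * (n : ℤ) + h ∈ R) l ∧
    HD (fun n => ∀ h : ℕ, h ≤ g n → s * (n : ℤ) + h ∉ R) (1 - l) := by
  have hE : HD (fun n : ℕ => ∃ t : ℕ, 4 ^ t ≤ n ∧ ∀ h : ℕ, h ≤ g n →
      (Tz 1)^[t] (s * ((n : ℕ) : ℤ) + h) = (Tz 1)^[t] (s * ((n : ℕ) : ℤ))) 1 := by
    classical
    rw [HD_iff]
    exact run_T hs hg
  have hit : ∀ (k : ℕ) (z : ℤ), z ∈ R ↔ (Tz 1)^[k] z ∈ R := by
    intro k
    induction k with
    | zero => intro z; rfl
    | succ k ih => intro z; rw [Function.iterate_succ_apply, hR z, ih]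
  have key : ∀ n : ℕ, (∃ t : ℕ, 4 ^ t ≤ n ∧ ∀ h : ℕ, h ≤ g n →
      (Tz 1)^[t] (s * ((n : ℕ) : ℤ) + h) = (Tz 1)^[t] (s * ((n : ℕ) : ℤ))) →
      ∀ h : ℕ, h ≤ g n → (s * (n : ℤ) + h ∈ R ↔ s * (n : ℤ) ∈ R) := by
    rintro n ⟨t, _, ht⟩ h hh
    rw [hit t (s * (n : ℤ) + h), ht h hh, ← hit t]
  constructor
  · refine HD_congr hE hl (fun n _ hn => ?_)
    constructor
    · intro h1 j hj
      exact (key n hn j hj).2 h1
    · intro h1
      have := h1 0 (Nat.zero_le _)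
      simpa using this
  · refine HD_congr hE (HD_not hl) (fun n _ hn => ?_)
    constructor
    · intro h1 j hj hcon
      exact h1 ((key n hn j hj).1 hcon)
    · intro h1
      have := h1 0 (Nat.zero_le _)
      simpa using this

/-- The same for properties of the positive integers. -/
theorem run_invN {g : ℕ → ℕ} (hg : Slow g) {P : ℕ → Prop}
    (hP : ∀ n, 1 ≤ n → (P n ↔ P (Pool.Agent.H499R2.ND.Tn n))) {l : ℝ} (hl : HD P l) :
    HD (fun n => ∀ h : ℕ, h ≤ g n → P (n + h)) l ∧ HD (fun n => ∀ h : ℕ, h ≤ g n → ¬ P (n + h)) (1 - l) := by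
  have h1 := run_inv (s := 1) (Or.inl rfl) hg (R := {x : ℤ | 0 < x ∧ P x.toNat}) (by
    intro x
    by_cases hx : 0 < x
    · have hT : 0 < Tz 1 x := by
        have := (sign_pos (s := 1) (Or.inl rfl) x).1 (by rw [one_mul]; exact hx)
        rwa [one_mul] at this
      have e : (Tz 1 x).toNat = Pool.Agent.H499R2.ND.Tn x.toNat := by
        obtain ⟨n, rfl⟩ : ∃ n : ℕ, x = n := ⟨x.toNat, by omega⟩
        unfold Tz Pool.Agent.H499R2.ND.Tn
        rw [Int.toNat_natCast]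
        rcases Nat.mod_two_eq_zero_or_one n with h | h
        · rw [if_pos (by omega), if_pos h]; omega
        · rw [if_neg (by omega), if_neg (by omega)]; omega
      have e1 : x ∈ {x : ℤ | 0 < x ∧ P x.toNat} ↔ P x.toNat := ⟨fun h => h.2, fun h => ⟨hx, h⟩⟩
      have e2 : Tz 1 x ∈ {x : ℤ | 0 < x ∧ P x.toNat} ↔ P (Tz 1 x).toNat :=
        ⟨fun h => h.2, fun h => ⟨hT, h⟩⟩
      rw [e1, e2, e]
      exact hP _ (by omega)
    · have hT : ¬ 0 < Tz 1 x := by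
        intro hcon
        have := (sign_pos (s := 1) (Or.inl rfl) x).2 (by rw [one_mul]; exact hcon)
        rw [one_mul] at this
        exact hx this
      exact ⟨fun h => (hx h.1).elim, fun h => (hT h.1).elim⟩) (l := l) (by
    have e : ∀ N : ℕ, {n : ℕ | 1 ≤ n ∧ n ≤ N ∧ 1 * (n : ℤ) ∈ {x : ℤ | 0 < x ∧ P x.toNat}} =
        {n : ℕ | 1 ≤ n ∧ n ≤ N ∧ P n} := by
      intro N
      ext n
      simp only [Set.mem_ofPred_eq, one_mul, Int.toNat_natCast]
      constructor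
      · rintro ⟨h1, h2, _, h3⟩; exact ⟨h1, h2, h3⟩
      · rintro ⟨h1, h2, h3⟩; exact ⟨h1, h2, by exact_mod_cast h1, h3⟩
    unfold HD
    simp only [e]
    exact hl)
  have e1 : ∀ n : ℕ, 1 ≤ n → ∀ h : ℕ, (1 * (n : ℤ) + h ∈ {x : ℤ | 0 < x ∧ P x.toNat} ↔ P (n + h)) := by
    intro n hn h
    have e : 1 * (n : ℤ) + (h : ℤ) = ((n + h : ℕ) : ℤ) := by push_cast; ring
    rw [e]
    constructor
    · rintro ⟨_, h3⟩; rwa [Int.toNat_natCast] at h3
    · intro h3
      refine ⟨by exact_mod_cast (by omega : 0 < n + h), ?_⟩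
      rwa [Int.toNat_natCast]
  have hset : ∀ {A B : ℕ → Prop} {l : ℝ}, (∀ n, 1 ≤ n → (A n ↔ B n)) → HD A l → HD B l := by
    intro A B l hAB hA
    unfold HD at *
    refine hA.congr (fun N => ?_)
    congr 3
    ext n
    simp only [Set.mem_ofPred_eq]
    constructor
    · rintro ⟨h1, h2, h3⟩; exact ⟨h1, h2, (hAB n h1).1 h3⟩
    · rintro ⟨h1, h2, h3⟩; exact ⟨h1, h2, (hAB n h1).2 h3⟩
  refine ⟨hset (fun n hn => ?_) h1.1, hset (fun n hn => ?_) h1.2⟩
  · exact forall_congr' (fun h => imp_congr_right (fun _ => e1 n hn h))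
  · exact forall_congr' (fun h => imp_congr_right (fun _ => not_congr (e1 n hn h)))

theorem Slow_one : ∀ c : ℕ, Slow (fun _ => c) := by
  intro c
  unfold Slow
  have h1 : Tendsto (fun x : ℝ => Real.log x / √ x) atTop (𝓝 0) := by
    have := isLittleO_log_rpow_atTop (r := 1 / 2) (by norm_num)
    have h2 := this.tendsto_div_nhds_zero
    refine h2.congr (fun x => ?_)
    rw [Real.sqrt_eq_rpow]
  have h2 : Tendsto (fun n : ℕ => Real.log (n : ℝ)) atTop atTop :=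
    Real.tendsto_log_atTop.comp tendsto_natCast_atTop_atTop
  have h3 := (h1.comp h2).const_mul (c : ℝ)
  rw [mul_zero] at h3
  refine h3.congr (fun n => ?_)
  simp only [Function.comp]
  ring

end Pool.Agent.H499R2.CO
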