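import Mathlib
import Pool.Agent.H499R2.CO.R6
import Pool.Agent.H499R2.LT.R1
import Pool.Agent.H499R2.NDCol

set_option autoImplicit false

namespace Pool.Agent.H499R2.CO

open Finset Filter Topology

/-! The maps `3x+d`: runs in arithmetic progressions with difference `d`. -/

theorem Tz_side {d : ℤ} (hd : d % 2 = 1) {s : ℤ} (hs : s = 1 ∨ s = -1) (x : ℤ) :
    Tz d (s * x) = s * Tz (s * d) x := by
  rcases hs with rfl | rfl
  · simp
  · unfold Tz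
    rcases Int.emod_two_eq_zero_or_one x with h | h
    · rw [if_pos (by omega), if_pos h]; omega
    · rw [if_neg (by omega), if_neg (by omega)]; omega

theorem Tz_side_iter {d : ℤ} (hd : d % 2 = 1) {s : ℤ} (hs : s = 1 ∨ s = -1) (t : ℕ) : ∀ x : ℤ,
    (Tz d)^[t] (s * x) = s * (Tz (s * d))^[t] x := by
  induction t with
  | zero => intro x; rfl
  | succ t ih =>
    intro x
    rw [Function.iterate_succ_apply, Function.iterate_succ_apply, Tz_side hd hs, ih]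

open Classical in
theorem run_D {d : ℤ} (hd : d % 2 = 1) {s : ℤ} (hs : s = 1 ∨ s = -1) {g : ℕ → ℕ} (hg : Slow g) :
    HD (fun n : ℕ => ∃ t : ℕ, 4 ^ t ≤ n ∧ ∀ h : ℕ, h ≤ g n →
      (Tz d)^[t] (s * ((n : ℕ) : ℤ) + d * h) = (Tz d)^[t] (s * ((n : ℕ) : ℤ))) 1 := by
  rw [HD_iff]
  apply density_one
  intro ε hε
  obtain ⟨N0, hN0⟩ := run_small hg hε
  refine ⟨N0, fun N => ?_⟩
  rcases Nat.lt_or_ge N N0 with h | h
  · have h1 : (#{n ∈ Icc 1 N | ¬ ∃ t : ℕ, 4 ^ t ≤ n ∧ ∀ h : ℕ, h ≤ g n →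
      (Tz d)^[t] (s * ((n : ℕ) : ℤ) + d * h) = (Tz d)^[t] (s * ((n : ℕ) : ℤ))} : ℝ) ≤ N := by
      have := card_filter_le (Icc 1 N) (fun n => ¬ ∃ t : ℕ, 4 ^ t ≤ n ∧ ∀ h : ℕ, h ≤ g n →
        (Tz d)^[t] (s * ((n : ℕ) : ℤ) + d * h) = (Tz d)^[t] (s * ((n : ℕ) : ℤ)))
      rw [Nat.card_Icc, Nat.add_sub_cancel] at this
      exact_mod_cast this
    have h2 : (N : ℝ) ≤ N0 := by exact_mod_cast h.le
    have h3 : 0 ≤ ε * N := by positivity
    linarith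
  · have hsodd : (s * d) % 2 = 1 := by
      rcases hs with rfl | rfl <;> omega
    have h1 := hN0 N h (s * d) hsodd
    have h2 : #{n ∈ Icc 1 N | ¬ ∃ t : ℕ, 4 ^ t ≤ n ∧ ∀ h : ℕ, h ≤ g n →
      (Tz d)^[t] (s * ((n : ℕ) : ℤ) + d * h) = (Tz d)^[t] (s * ((n : ℕ) : ℤ))} ≤
      #{n ∈ Icc 1 N | ¬ (4 ^ (Nat.log 2 N / 4) ≤ n ∧
        ∀ h ∈ Icc 1 (g n), ¬ surv (s * d) (Nat.log 2 N / 4) (0, ((h : ℕ) : ℤ)) (n : ℕ))} := by
      apply card_le_card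
      intro n hn
      rw [mem_filter] at hn ⊢
      refine ⟨hn.1, ?_⟩
      rintro ⟨h3, h4⟩
      apply hn.2
      refine ⟨Nat.log 2 N / 4, h3, fun j hj => ?_⟩
      rcases Nat.eq_zero_or_pos j with rfl | hj0
      · simp
      · obtain ⟨t, ht, hh⟩ := coal hsodd _ 0 _ _ (h4 j (mem_Icc.2 ⟨hj0, hj⟩))
        have h5 := iter_persist hh ht
        have h6 := congrArg (fun z => s * z) h5
        rw [← Tz_side_iter hd hs, ← Tz_side_iter hd hs] at h6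
        rw [h6]
        congr 1
        rcases hs with rfl | rfl <;> ring
    have h3 : (#{n ∈ Icc 1 N | ¬ ∃ t : ℕ, 4 ^ t ≤ n ∧ ∀ h : ℕ, h ≤ g n →
      (Tz d)^[t] (s * ((n : ℕ) : ℤ) + d * h) = (Tz d)^[t] (s * ((n : ℕ) : ℤ))} : ℝ) ≤
      #{n ∈ Icc 1 N | ¬ (4 ^ (Nat.log 2 N / 4) ≤ n ∧
        ∀ h ∈ Icc 1 (g n), ¬ surv (s * d) (Nat.log 2 N / 4) (0, ((h : ℕ) : ℤ)) (n : ℕ))} := by
      exact_mod_cast h2
    have h4 : (0 : ℝ) ≤ N0 := by positivity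
    linarith

theorem inv_iter {f : ℤ → ℤ} {R : Set ℤ} (hR : ∀ x, x ∈ R ↔ f x ∈ R) (k : ℕ) : ∀ z, z ∈ R ↔ f^[k] z ∈ R := by
  induction k with
  | zero => intro z; rfl
  | succ k ih => intro z; rw [Function.iterate_succ_apply, hR z, ih]

/-- every nonzero orbit contains an element prime to 3 -/
theorem exists_prime3 {d : ℤ} (hd : d % 2 = 1) (hd3 : ¬ (3 : ℤ) ∣ d) : ∀ (m : ℕ) (x : ℤ), x.natAbs = m → x ≠ 0 →
    ∃ j : ℕ, ¬ (3 : ℤ) ∣ (Tz d)^[j] x := by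
  intro m
  induction m using Nat.strong_induction_on with
  | _ m ih =>
    intro x hm hx
    rcases Int.emod_two_eq_zero_or_one x with h | h
    · obtain ⟨j, hj⟩ := ih (x / 2).natAbs (by omega) (x / 2) rfl (by omega)
      refine ⟨j + 1, ?_⟩
      rw [Function.iterate_succ_apply]
      have e : Tz d x = x / 2 := by unfold Tz; rw [if_pos h]
      rw [e]; exact hj
    · refine ⟨1, ?_⟩
      rw [Function.iterate_one]
      have e : Tz d x = (3 * x + d) / 2 := by unfold Tz; rw [if_neg (by omega)]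
      rw [e]
      intro h3
      apply hd3
      obtain ⟨c, hc⟩ := h3
      exact ⟨2 * c - x, by omega⟩

theorem suff_D {d : ℤ} (hd : Odd d) (hd3 : ¬ (3 : ℤ) ∣ d) {g : ℕ → ℕ} (hg : Slow g) {W R : Set ℤ}
    (hW : ∀ s : ℤ, s = 1 ∨ s = -1 → HD (fun n : ℕ => ∃ h : ℕ, h ≤ g n ∧ s * ((n : ℕ) : ℤ) + d * h ∈ W) 1)
    (hR : ∀ x, x ∈ R ↔ Tz d x ∈ R) (hWR : W ⊆ R) : ∀ x : ℤ, x ≠ 0 → x ∈ R := by
  intro x hx
  have hd2 : d % 2 = 1 := Int.odd_iff.1 hd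
  by_contra hxR
  obtain ⟨j, hj⟩ := exists_prime3 hd2 hd3 _ x rfl hx
  set a := (Tz d)^[j] x with ha
  have haR : a ∉ R := fun h => hxR ((inv_iter hR j x).2 h)
  have ha0 : a ≠ 0 := fun h => hj (by rw [h]; exact dvd_zero _)
  obtain ⟨s, hs, hsa⟩ : ∃ s : ℤ, (s = 1 ∨ s = -1) ∧ 0 < s * a := by
    rcases lt_or_gt_of_ne ha0 with h | h
    · exact ⟨-1, Or.inr rfl, by omega⟩
    · exact ⟨1, Or.inl rfl, by omega⟩
  obtain ⟨δ, _, _, _, _, hpos, hδ, _, _⟩ := Pool.Agent.H499R2.LT.laws_side hd hd3 hs {a}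
  have hδ0 : 0 < δ := hpos ⟨a, by simp, hsa, hj⟩
  have h1 := HD_not (run_D hd2 hs hg)
  have h2 := HD_not (hW s hs)
  rw [sub_self] at h1 h2
  have h3 : Pool.Agent.H499R2.ND.Dn (fun n : ℕ => ∃ k : ℕ, (Pool.Agent.H499R2.ND.Td d)^[k] (s * n) ∈ ({a} : Finset ℤ)) 0 := by
    refine Pool.Agent.H499R2.ND.zd_or h1 h2 fun n hn hk => ?_
    by_contra hcon
    rw [not_or, not_not, not_not] at hcon
    obtain ⟨⟨t, _, ht⟩, h, hh, hhW⟩ := hcon
    obtain ⟨k, hk⟩ := hk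
    rw [Finset.mem_singleton] at hk
    have h4 : s * (n : ℤ) ∉ R := by
      intro h5
      have h6 := (inv_iter hR k _).1 h5
      apply haR
      rw [← hk]
      exact h6
    apply h4
    rw [inv_iter hR t, ← ht h hh, ← inv_iter hR t]
    exact hWR hhW
  have h4 : δ = 0 := tendsto_nhds_unique hδ h3
  linarith

end Pool.Agent.H499R2.CO
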