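import Mathlib
import Pool.Agent.H499R2.CO.S2

set_option autoImplicit false

namespace Pool.Agent.H499R2.CO

open Finset Filter Topology Pool.Agent.H499R2.ND

/-! Final forms. -/

/-- The number of `h` in `[1, H]` such that `x + h` and `x` do not coalesce within `log₂ N` steps. -/
noncomputable def bad (N H : ℕ) (x : ℤ) : ℕ :=
  {h : ℕ | 1 ≤ h ∧ h ≤ H ∧ ∀ t : ℕ, 2 ^ t ≤ N → (Tz 1)^[t] (x + h) ≠ (Tz 1)^[t] x}.ncard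

open Classical in
theorem bad_eq (N H : ℕ) (x : ℤ) : bad N H x =
    #{j ∈ Icc 1 H | ¬ ∃ t, 2 ^ t ≤ N ∧ (Tz 1)^[t] x = (Tz 1)^[t] (x + (j : ℕ))} := by
  unfold bad
  rw [← Set.ncard_coe_finset]
  congr 1
  ext h
  simp only [coe_filter, mem_Icc, Set.mem_setOf_eq, not_exists, not_and, ne_eq]
  constructor
  · rintro ⟨h1, h2, h3⟩
    exact ⟨⟨h1, h2⟩, fun t ht e => h3 t ht e.symm⟩
  · rintro ⟨⟨h1, h2⟩, h3⟩
    exact ⟨h1, h2, fun t ht e => h3 t ht e.symm⟩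

theorem bad_count {s : ℤ} (hs : s = 1 ∨ s = -1) {ε : ℝ} (hε : 0 < ε) :
    ∃ θ : ℝ, 0 < θ ∧ ∃ N0 : ℕ, ∀ N ≥ N0,
    ({n : ℕ | 1 ≤ n ∧ n ≤ N ∧ ε * ⌊(N : ℝ) ^ θ⌋₊ < bad N ⌊(N : ℝ) ^ θ⌋₊ (s * n)}.ncard : ℝ) ≤ ε * N := by
  classical
  obtain ⟨θ, hθ, N0, h⟩ := solid_side hs hε hε
  refine ⟨θ, hθ, N0, fun N hN => ?_⟩
  refine le_trans (le_of_eq ?_) (h N hN)
  rw [← Set.ncard_coe_finset]
  congr 2
  ext n
  simp only [coe_filter, mem_Icc, Set.mem_setOf_eq, bad_eq]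
  tauto

/-- An invariant set with an element of sign `s` fills most of `(n, n + n ^ θ]` for a positive
proportion of the `n`. -/
theorem inv_solid {s : ℤ} (hs : s = 1 ∨ s = -1) {R : Set ℤ} (hR : ∀ x, x ∈ R ↔ Tz 1 x ∈ R)
    (hne : ∃ x ∈ R, 0 < s * x) : ∃ δ : ℝ, 0 < δ ∧ ∀ ε : ℝ, 0 < ε → ∃ θ : ℝ, 0 < θ ∧ ∃ N0 : ℕ, ∀ N ≥ N0,
    δ * N ≤ ({n : ℕ | 1 ≤ n ∧ n ≤ N ∧ s * (n : ℤ) ∈ R ∧
      ({h : ℕ | 1 ≤ h ∧ h ≤ ⌊(N : ℝ) ^ θ⌋₊ ∧ s * (n : ℤ) + h ∉ R}.ncard : ℝ) ≤ ε * ⌊(N : ℝ) ^ θ⌋₊}.ncard : ℝ) := by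
  classical
  obtain ⟨b, hbR, hb⟩ := hne
  obtain ⟨δ, hδ, hclass⟩ := class_many_side hs hb
  refine ⟨δ / 2, by positivity, fun ε hε => ?_⟩
  obtain ⟨θ, hθ, N0, h⟩ := bad_count hs (ε := min ε (δ / 2)) (by positivity)
  obtain ⟨N1, hN1⟩ := eventually_atTop.1 hclass
  refine ⟨θ, hθ, max N0 N1, fun N hN => ?_⟩
  have h1 := h N ((le_max_left _ _).trans hN)
  have h2 := hN1 N ((le_max_right _ _).trans hN)
  set Hh := ⌊(N : ℝ) ^ θ⌋₊ with hHh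
  set A : Set ℕ := {n : ℕ | 1 ≤ n ∧ n ≤ N ∧ s * (n : ℤ) ∈ R ∧
      ({h : ℕ | 1 ≤ h ∧ h ≤ Hh ∧ s * (n : ℤ) + h ∉ R}.ncard : ℝ) ≤ ε * Hh} with hA
  set B : Set ℕ := {n : ℕ | 1 ≤ n ∧ n ≤ N ∧ min ε (δ / 2) * Hh < bad N Hh (s * n)} with hB
  set K := ({n ∈ Icc 1 N | s * ((n : ℕ) : ℤ) ∈ Kc b} : Finset ℕ) with hK
  have hsub : (K : Set ℕ) ⊆ A ∪ B := by
    intro n hn
    rw [mem_coe, hK, mem_filter, mem_Icc] at hn
    by_cases hnB : n ∈ B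
    · exact Or.inr hnB
    · left
      have hnR : s * (n : ℤ) ∈ R := (inv_Kc hR hn.2).2 hbR
      refine ⟨hn.1.1, hn.1.2, hnR, ?_⟩
      have h3 : (bad N Hh (s * n) : ℝ) ≤ min ε (δ / 2) * Hh := by
        by_contra hcon
        rw [not_le] at hcon
        exact hnB ⟨hn.1.1, hn.1.2, hcon⟩
      have h4 : min ε (δ / 2) * (Hh : ℝ) ≤ ε * Hh := mul_le_mul_of_nonneg_right (min_le_left _ _) (by positivity)
      refine le_trans ?_ (h3.trans h4)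
      have h5 : {h : ℕ | 1 ≤ h ∧ h ≤ Hh ∧ s * (n : ℤ) + h ∉ R}.ncard ≤ bad N Hh (s * n) := by
        unfold bad
        apply Set.ncard_le_ncard
        · rintro j ⟨j1, j2, j3⟩
          refine ⟨j1, j2, fun t _ e => j3 ?_⟩
          exact (inv_Kc hR (merge_of_coalT e)).2 hnR
        · exact (Set.finite_Icc 1 Hh).subset (fun j hj => ⟨hj.1, hj.2.1⟩)
      exact_mod_cast h5
  have hAfin : A.Finite := (Set.finite_Icc 1 N).subset (fun n hn => ⟨hn.1, hn.2.1⟩)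
  have hBfin : B.Finite := (Set.finite_Icc 1 N).subset (fun n hn => ⟨hn.1, hn.2.1⟩)
  have h3 : (K.card : ℝ) ≤ A.ncard + B.ncard := by
    have h4 := Set.ncard_le_ncard hsub (hAfin.union hBfin)
    rw [Set.ncard_coe_finset] at h4
    exact_mod_cast h4.trans (Set.ncard_union_le A B)
  have h4 : min ε (δ / 2) * (N : ℝ) ≤ δ / 2 * N := mul_le_mul_of_nonneg_right (min_le_right _ _) (by positivity)
  linarith

/-- The number of elements of `S` among `x + 1, ..., x + H`. -/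
noncomputable def cnt (S : Set ℤ) (x : ℤ) (H : ℕ) : ℕ := {h : ℕ | 1 ≤ h ∧ h ≤ H ∧ x + h ∈ S}.ncard

/-- `S` is not too sparse in most short intervals of the side `s`. -/
def Spread (s : ℤ) (S : Set ℤ) : Prop :=
  ∀ ε : ℝ, 0 < ε → ∃ c : ℝ, 0 < c ∧ ∀ θ : ℝ, 0 < θ → ∃ᶠ N : ℕ in atTop,
    ({n : ℕ | 1 ≤ n ∧ n ≤ N ∧ (cnt S (s * n) ⌊(N : ℝ) ^ θ⌋₊ : ℝ) < c * ⌊(N : ℝ) ^ θ⌋₊}.ncard : ℝ) ≤ ε * N

theorem spread_inv {s : ℤ} (hs : s = 1 ∨ s = -1) {R : Set ℤ} (hR : ∀ x, x ∈ R ↔ Tz 1 x ∈ R)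
    (S : Set ℤ) (hS : Spread s S) (h1 : ∀ x ∈ S, 0 < s * x → x ∈ R) : ∀ x, 0 < s * x → x ∈ R := by
  classical
  apply sufficient_side hs hR S _ h1
  intro ε hε
  obtain ⟨c, hc, hθ⟩ := hS ε hε
  refine ⟨c, hc, fun θ hθ0 => (hθ θ hθ0).mono fun N hN => ?_⟩
  refine le_trans (le_of_eq ?_) hN
  rw [← Set.ncard_coe_finset]
  congr 2
  ext n
  have e : ∀ n : ℕ, cnt S (s * n) ⌊(N : ℝ) ^ θ⌋₊ =
      #{j ∈ Icc 1 ⌊(N : ℝ) ^ θ⌋₊ | s * ((n : ℕ) : ℤ) + ((j : ℕ) : ℤ) ∈ S} := by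
    intro n
    unfold cnt
    rw [← Set.ncard_coe_finset]
    congr 1
    ext j
    simp only [coe_filter, mem_Icc, Set.mem_setOf_eq]
    tauto
  simp only [coe_filter, mem_Icc, Set.mem_setOf_eq, e]
  tauto

end Pool.Agent.H499R2.CO
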