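import Mathlib
import Pool.Agent.H499R2.CO.S3
import Pool.Agent.H499R2.NDCor

set_option autoImplicit false

namespace Pool.Agent.H499R2.CO

open Finset Filter Topology Pool.Agent.H499R2.ND

/-! Invariant properties of the positive integers. -/

/-- The number of elements of `S` among `n + 1, ..., n + H`. -/
noncomputable def cntN (S : Set ℕ) (n H : ℕ) : ℕ := {m : ℕ | m ∈ S ∧ n < m ∧ m ≤ n + H}.ncard

/-- `S` is not too sparse in most short intervals. -/
def SpreadN (S : Set ℕ) : Prop :=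
  ∀ ε : ℝ, 0 < ε → ∃ c : ℝ, 0 < c ∧ ∀ θ : ℝ, 0 < θ → ∃ᶠ N : ℕ in atTop,
    ({n : ℕ | 1 ≤ n ∧ n ≤ N ∧ (cntN S n ⌊(N : ℝ) ^ θ⌋₊ : ℝ) < c * ⌊(N : ℝ) ^ θ⌋₊}.ncard : ℝ) ≤ ε * N

theorem cntN_eq (S : Set ℕ) (n H : ℕ) : cntN S n H = cnt {x : ℤ | 0 < x ∧ x.toNat ∈ S} (1 * (n : ℤ)) H := by
  unfold cntN cnt
  have : {m : ℕ | m ∈ S ∧ n < m ∧ m ≤ n + H} = (fun j => n + j) ''
      {h : ℕ | 1 ≤ h ∧ h ≤ H ∧ 1 * (n : ℤ) + h ∈ {x : ℤ | 0 < x ∧ x.toNat ∈ S}} := by
    ext m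
    rw [Set.mem_image]
    constructor
    · rintro ⟨h1, h2, h3⟩
      refine ⟨m - n, ⟨by omega, by omega, ?_⟩, by omega⟩
      have e : 1 * (n : ℤ) + ((m - n : ℕ) : ℤ) = m := by omega
      rw [e]
      exact ⟨by omega, by simpa using h1⟩
    · rintro ⟨j, ⟨h1, h2, h3⟩, rfl⟩
      have e : 1 * (n : ℤ) + (j : ℤ) = ((n + j : ℕ) : ℤ) := by push_cast; ring
      rw [e] at h3
      have h4 : ((n + j : ℕ) : ℤ).toNat ∈ S := h3.2
      rw [Int.toNat_natCast] at h4
      exact ⟨h4, by omega, by omega⟩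
  rw [this, Set.ncard_image_of_injective _ (add_right_injective n)]

/-- An invariant property which holds on a spread set holds everywhere. -/
theorem spreadN_inv {P : ℕ → Prop} (hP : ∀ n, 1 ≤ n → (P n ↔ P (Tn n))) {S : Set ℕ} (hS : SpreadN S)
    (h : ∀ n ∈ S, 1 ≤ n → P n) : ∀ n, 1 ≤ n → P n := by
  have h1 := spread_inv (s := 1) (Or.inl rfl) (R := {x : ℤ | 0 < x → P x.toNat}) (by
    intro x
    by_cases hx : 0 < x
    · have hT : 0 < Tz 1 x := by
        have := (sign_pos (s := 1) (Or.inl rfl) x).1 (by rw [one_mul]; exact hx)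
        rwa [one_mul] at this
      have e : (Tz 1 x).toNat = Tn x.toNat := by
        obtain ⟨n, rfl⟩ : ∃ n : ℕ, x = n := ⟨x.toNat, by omega⟩
        unfold Tz Tn
        rw [Int.toNat_natCast]
        rcases Nat.mod_two_eq_zero_or_one n with h | h
        · rw [if_pos (by omega), if_pos h]; omega
        · rw [if_neg (by omega), if_neg (by omega)]; omega
      have e1 : x ∈ {x : ℤ | 0 < x → P x.toNat} ↔ P x.toNat := ⟨fun h => h hx, fun h _ => h⟩
      have e2 : Tz 1 x ∈ {x : ℤ | 0 < x → P x.toNat} ↔ P (Tz 1 x).toNat := ⟨fun h => h hT, fun h _ => h⟩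
      rw [e1, e2, e]
      exact hP _ (by omega)
    · have hT : ¬ 0 < Tz 1 x := by
        intro hcon
        have := (sign_pos (s := 1) (Or.inl rfl) x).2 (by rw [one_mul]; exact hcon)
        rw [one_mul] at this
        exact hx this
      exact ⟨fun _ h => (hT h).elim, fun _ h => (hx h).elim⟩) {x : ℤ | 0 < x ∧ x.toNat ∈ S} ?_ ?_
  · intro n hn
    have := h1 (n : ℤ) (by rw [one_mul]; exact_mod_cast hn) (by exact_mod_cast hn)
    simpa using this
  · intro ε hε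
    obtain ⟨c, hc, hθ⟩ := hS ε hε
    refine ⟨c, hc, fun θ hθ0 => (hθ θ hθ0).mono fun N hN => ?_⟩
    simp only [cntN_eq] at hN
    exact hN
  · rintro x ⟨hx1, hx2⟩ _ _
    exact h _ hx2 (by omega)

end Pool.Agent.H499R2.CO
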